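import Pool.Agent.Lib.FF4.NotFlat
import Pool.Agent.Lib.FF4.Hea3

/-!
# MP_02f22c_co: van der Holst's conjecture on 4-flat graphs is false

The circulant graph `C₁₁(1,3)` is not 4-flat, and none of the 78 graphs of the Heawood family is a
minor of it; hence it has a minor that is an excluded minor for the class of 4-flat graphs and is
not in the family. (`FF4.C11_no_embedding` proves more: the complex obtained from `C₁₁(1,3)` by
attaching discs along its 55 induced cycles has no topological embedding into `ℝ⁴`.)
-/

set_option autoImplicit false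

namespace Pool.Agent.Results.MP_02f22c_co.VanDerHolstFalse

open FF4

theorem result :
    ¬ FourFlat C11 ∧
    (∀ (m : ℕ) (G : SimpleGraph (Fin m)), Heawood m G → ¬ IsMinor G C11) ∧
    ∃ (n : ℕ) (M : SimpleGraph (Fin n)), IsMinor M C11 ∧ ExcludedMinor Flat M ∧
      ∀ (m : ℕ) (G : SimpleGraph (Fin m)), Heawood m G → ¬ Nonempty (M ≃g G) := by
  refine ⟨C11_not_flat, fun m G hG => heawood_not_minor hG, ?_⟩
  obtain ⟨n, M, hM, hex⟩ := exists_excluded Flat C11 C11_not_flat
  exact ⟨n, M, hM, hex, fun m G hG ⟨e⟩ => heawood_not_minor hG (hM.of_iso e)⟩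

end Pool.Agent.Results.MP_02f22c_co.VanDerHolstFalse
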